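import Pool.Agent.W680.WH.Stm

/-!
Uniqueness of lifts.
-/

set_option autoImplicit false

open scoped ComplexConjugate InnerProductSpace
open ContinuousLinearMap Filter

namespace Pool.Agent.W915.WH.Lun

open Pool.Agent.W680.WH

theorem adj_mul (A B : E →L[ℂ] E) : adjoint (A * B) = adjoint B * adjoint A :=
  adjoint_comp A B

theorem adj_smul (c : ℂ) : adjoint (c • (1 : E →L[ℂ] E)) = conj c • (1 : E →L[ℂ] E) := by
  rw [map_smulₛₗ]
  have h : adjoint (1 : E →L[ℂ] E) = 1 := star_one (E →L[ℂ] E)
  rw [h]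

theorem eb_zero_ne (h3 : S_OPC) : eb 0 ≠ 0 := by
  intro h
  have h1 := h3.1 0 0
  have h2 := h3.2.2.2.2.2.1 0 (eb 0) 0
  rw [zero_smul, zero_mul, ← h, h1] at h2
  simp at h2

theorem smul_one_inj (h3 : S_OPC) {c c' : ℂ} (h : c • eb 0 = c' • eb 0) : c = c' := by
  have h1 : (c - c') • eb 0 = 0 := by rw [sub_smul, h, sub_self]
  rcases smul_eq_zero.1 h1 with h2 | h2
  · exact sub_eq_zero.1 h2
  · exact absurd h2 (eb_zero_ne h3)

/-- an operator commuting with `jj` which is a multiple of the identity: real multiple. -/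
theorem real_of (h2 : S_OPJ) (h3 : S_OPC) {c : ℂ} {A : E →L[ℂ] E} (hA : A = c • (1 : E →L[ℂ] E))
    (hj : ∀ f, jj (A f) = A (jj f)) : conj c = c := by
  have h1 := hj (eb 0)
  have e1 : jj (eb 0) = eb 0 := by
    have := h2.2.2.2.2.2.2.2.2.2.2.1 0
    rwa [neg_zero] at this
  have e2 : ∀ f : E, A f = c • f := fun f => by rw [hA]; rfl
  rw [e1, e2, h2.2.2.2.2.2.2.2.1 c (eb 0), e1] at h1
  exact smul_one_inj h3 h1

/-- the equations for a lift -/
theorem lift_eqs (h7 : S_BLA) (h8 : S_BLM) {φ : Mob} {V d : E →L[ℂ] E}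
    (h : blk V (V * d) V * φ.op T = T * blk V (V * d) V) :
    V * φ.op Z = Z * V ∧ V * ((φ.c * (1 - conj φ.a * φ.a)) •
      (Ring.inverse (1 - (conj φ.a) • Z) * X * Ring.inverse (1 - (conj φ.a) • Z))) +
      V * d * φ.op Z = Z * (V * d) + X * V := by
  obtain ⟨b1, -, -, -, b5, -, -⟩ := h7
  obtain ⟨-, -, -, b4⟩ := h8
  unfold T at h
  rw [b4 φ X, b1, b1] at h
  obtain ⟨e1, e2, -⟩ := b5 _ _ _ _ _ _ h
  exact ⟨e1, e2⟩

/-- an operator commuting with the transform commutes with `Z` -/
theorem comm_of (h5 : S_MOBC) (h6 : S_MOBG) (h9 : S_INV) {φ : Mob} {A : E →L[ℂ] E}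
    (h : A * φ.op Z = φ.op Z * A) : A * Z = Z * A := by
  obtain ⟨ψ, -, hψ⟩ := h6.2.1 φ
  have hu : ∀ a : ℂ, ‖a‖ < 1 → IsUnit (1 - a • Z) := fun a ha => (h9 a ha).1
  obtain ⟨m1, m2, -⟩ := h5 E Z hu
  set χ : Mob := ⟨1, 0, by simp, by simp⟩ with hχ
  have e1 : χ.op Z = ψ.op (φ.op Z) := by
    apply m2
    intro z hz
    rw [hψ z hz, Mob.act, hχ]
    simp
  have e2 : χ.op Z = Z := by
    unfold Mob.op mob
    rw [hχ]
    simp
  rw [e2] at e1
  have hunit := m1 φ (conj ψ.a) (by rw [RCLike.norm_conj]; exact ψ.ha)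
  have c1 : Commute A (φ.op Z) := h
  have c2 : Commute A (φ.op Z - ψ.a • (1 : E →L[ℂ] E)) :=
    c1.sub_right ((Commute.one_right A).smul_right _)
  have c3 : Commute A (1 - conj ψ.a • φ.op Z) := (Commute.one_right A).sub_right (c1.smul_right _)
  have c4 : Commute A (Ring.inverse (1 - conj ψ.a • φ.op Z)) := by
    obtain ⟨u, hu'⟩ := hunit
    rw [← hu', Ring.inverse_unit]
    rw [← hu'] at c3
    exact c3.units_inv_right
  have c5 : Commute A (ψ.op (φ.op Z)) := (c2.mul_right c4).smul_right _
  rw [← e1] at c5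
  exact c5

set_option maxHeartbeats 4000000 in
theorem main (h0 : S_IRR) (h1 : S_OPA) (h2 : S_OPJ) (h3 : S_OPC) (h5 : S_MOBC) (h6 : S_MOBG)
    (h7 : S_BLA) (h8 : S_BLM) (h9 : S_INV) : S_LUN := by
  intro φ V d V' d' hL hL'
  obtain ⟨v1, v2, vj, da, dj, hb⟩ := hL
  obtain ⟨v1', v2', vj', da', dj', hb'⟩ := hL'
  obtain ⟨q1, q2⟩ := lift_eqs h7 h8 hb
  obtain ⟨q1', q2'⟩ := lift_eqs h7 h8 hb'
  set P := φ.op Z with hP
  set Y := ((φ.c * (1 - conj φ.a * φ.a)) •
      (Ring.inverse (1 - (conj φ.a) • Z) * X * Ring.inverse (1 - (conj φ.a) • Z))) with hY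
  have hZa : adjoint Z = Zs := h1.2.1.1
  -- commutation with the adjoints
  have p1 : P * adjoint V = adjoint V * Z := by
    calc P * adjoint V = (adjoint V * V) * P * adjoint V := by rw [v1, one_mul]
      _ = adjoint V * (V * P) * adjoint V := by simp only [mul_assoc]
      _ = adjoint V * (Z * V) * adjoint V := by rw [q1]
      _ = adjoint V * Z * (V * adjoint V) := by simp only [mul_assoc]
      _ = adjoint V * Z := by rw [v2, mul_one]
  have p1' : P * adjoint V' = adjoint V' * Z := by
    calc P * adjoint V' = (adjoint V' * V') * P * adjoint V' := by rw [v1', one_mul]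
      _ = adjoint V' * (V' * P) * adjoint V' := by simp only [mul_assoc]
      _ = adjoint V' * (Z * V') * adjoint V' := by rw [q1']
      _ = adjoint V' * Z * (V' * adjoint V') := by simp only [mul_assoc]
      _ = adjoint V' * Z := by rw [v2', mul_one]
  have w1 : (V * adjoint V') * Z = Z * (V * adjoint V') := by
    calc (V * adjoint V') * Z = V * (adjoint V' * Z) := by rw [mul_assoc]
      _ = V * (P * adjoint V') := by rw [p1']
      _ = (V * P) * adjoint V' := by rw [mul_assoc]
      _ = Z * (V * adjoint V') := by rw [q1, mul_assoc]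
  have w1' : (V' * adjoint V) * Z = Z * (V' * adjoint V) := by
    calc (V' * adjoint V) * Z = V' * (adjoint V * Z) := by rw [mul_assoc]
      _ = V' * (P * adjoint V) := by rw [p1]
      _ = (V' * P) * adjoint V := by rw [mul_assoc]
      _ = Z * (V' * adjoint V) := by rw [q1', mul_assoc]
  have w2 : (V * adjoint V') * Zs = Zs * (V * adjoint V') := by
    have e : adjoint ((V' * adjoint V) * Z) = adjoint (Z * (V' * adjoint V)) := by rw [w1']
    rw [adj_mul (V' * adjoint V) Z, adj_mul Z (V' * adjoint V), adj_mul V' (adjoint V),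
      adjoint_adjoint, hZa] at e
    exact e.symm
  obtain ⟨c, hc⟩ := h0 _ w1 w2
  -- reality
  have jv' : ∀ f, jj (adjoint V' f) = adjoint V' (jj f) := by
    intro f
    have e1 : V' (adjoint V' f) = f := by
      have := congrArg (fun A : E →L[ℂ] E => A f) v2'
      exact this
    have e2 : adjoint V' (V' (jj (adjoint V' f))) = jj (adjoint V' f) := by
      have := congrArg (fun A : E →L[ℂ] E => A (jj (adjoint V' f))) v1'
      exact this
    rw [← e2, ← vj', e1]
  have jw : ∀ f, jj ((V * adjoint V') f) = (V * adjoint V') (jj f) := by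
    intro f
    change jj (V (adjoint V' f)) = V (adjoint V' (jj f))
    rw [vj, jv']
  have hcr : conj c = c := real_of h2 h3 hc jw
  have hVc : V = c • V' := by
    calc V = V * (adjoint V' * V') := by rw [v1', mul_one]
      _ = (V * adjoint V') * V' := by rw [mul_assoc]
      _ = c • V' := by rw [hc, smul_mul_assoc, one_mul]
  have hc2 : c * c = 1 := by
    have e1 : adjoint (V * adjoint V') * (V * adjoint V') = 1 := by
      rw [adj_mul, adjoint_adjoint]
      calc V' * adjoint V * (V * adjoint V') = V' * (adjoint V * V) * adjoint V' := by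
            simp only [mul_assoc]
        _ = 1 := by rw [v1, mul_one, v2']
    rw [hc, adj_smul, hcr, smul_mul_smul_comm, one_mul] at e1
    have e2 := congrArg (fun A : E →L[ℂ] E => A (eb 0)) e1
    have e3 : (c * c) • eb 0 = (1 : ℂ) • eb 0 := by
      rw [one_smul]
      exact e2
    exact smul_one_inj h3 e3
  have hcc : c = 1 ∨ c = -1 := by
    have : (c - 1) * (c + 1) = 0 := by ring_nf; rw [pow_two, hc2]; ring
    rcases mul_eq_zero.1 this with h | h
    · left; exact sub_eq_zero.1 h
    · right; exact eq_neg_of_add_eq_zero_left h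
  have hsign : V = V' ∨ V = -V' := by
    rcases hcc with h | h
    · left; rw [hVc, h, one_smul]
    · right; rw [hVc, h, neg_smul, one_smul]
  -- the second equation
  have q3 : V * Y + V * d' * P = Z * (V * d') + X * V := by
    have e := congrArg (fun A : E →L[ℂ] E => c • A) q2'
    simp only [smul_add] at e
    rw [hVc]
    simp only [smul_mul_assoc, mul_smul_comm]
    exact e
  have q4 : V * (d - d') * P = Z * (V * (d - d')) := by
    have e : V * Y + V * d * P - (V * Y + V * d' * P) =
        Z * (V * d) + X * V - (Z * (V * d') + X * V) := by rw [q2, q3]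
    have e' : V * d * P - V * d' * P = Z * (V * d) - Z * (V * d') := by
      have f1 : V * Y + V * d * P - (V * Y + V * d' * P) = V * d * P - V * d' * P :=
        add_sub_add_left_eq_sub _ _ _
      have f2 : Z * (V * d) + X * V - (Z * (V * d') + X * V) = Z * (V * d) - Z * (V * d') :=
        add_sub_add_right_eq_sub _ _ _
      rw [f1, f2] at e
      exact e
    calc V * (d - d') * P = V * d * P - V * d' * P := by rw [mul_sub V d d', sub_mul]
      _ = Z * (V * d) - Z * (V * d') := e'
      _ = Z * (V * (d - d')) := by rw [mul_sub V d d', mul_sub]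
  have q5 : (d - d') * P = P * (d - d') := by
    calc (d - d') * P = (adjoint V * V) * (d - d') * P := by rw [v1, one_mul]
      _ = adjoint V * (V * (d - d') * P) := by simp only [mul_assoc]
      _ = adjoint V * (Z * (V * (d - d'))) := by rw [q4]
      _ = adjoint V * (Z * V) * (d - d') := by simp only [mul_assoc]
      _ = adjoint V * (V * P) * (d - d') := by rw [q1]
      _ = (adjoint V * V) * P * (d - d') := by simp only [mul_assoc]
      _ = P * (d - d') := by rw [v1, one_mul]
  have q6 := comm_of h5 h6 h9 q5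
  have hda : adjoint (d - d') = -(d - d') := by
    rw [map_sub, da, da']; abel
  have q7 : (d - d') * Zs = Zs * (d - d') := by
    have e := congrArg adjoint q6
    rw [adj_mul, adj_mul, hda, hZa, mul_neg, neg_mul, neg_inj] at e
    exact e.symm
  obtain ⟨c', hc'⟩ := h0 _ q6 q7
  have jd : ∀ f, jj ((d - d') f) = (d - d') (jj f) := by
    intro f
    have e1 : (d - d') f = d f + (-1 : ℂ) • d' f := by
      rw [neg_smul, one_smul, ← sub_eq_add_neg]; rfl
    have e2 : (d - d') (jj f) = d (jj f) + (-1 : ℂ) • d' (jj f) := by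
      rw [neg_smul, one_smul, ← sub_eq_add_neg]; rfl
    rw [e1, e2, h2.2.2.2.2.2.2.1, h2.2.2.2.2.2.2.2.1, dj, dj']
    simp
  have hcr' : conj c' = c' := real_of h2 h3 hc' jd
  have hdd : d = d' := by
    rw [hc', adj_smul, hcr'] at hda
    have e2 := congrArg (fun A : E →L[ℂ] E => A (eb 0)) hda
    have e3 : c' • eb 0 = (-c') • eb 0 := by
      rw [neg_smul]
      exact e2
    have e4 := smul_one_inj h3 e3
    have e5 : c' = 0 := by
      have : (2 : ℂ) * c' = 0 := by linear_combination e4
      simpa using this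
    rw [e5, zero_smul] at hc'
    exact sub_eq_zero.1 hc'
  refine ⟨hdd, hsign, fun hp hp' => ?_⟩
  rcases hsign with h | h
  · exact h
  · exfalso
    unfold Pos at hp hp'
    rw [h] at hp
    have e1 : (-V') (eb 0) = -(V' (eb 0)) := rfl
    rw [e1, inner_neg_right, Complex.neg_re] at hp
    linarith

end Pool.Agent.W915.WH.Lun
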